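import Pool.Agent.H380DU.BFg

/-!
# The dynamical Tits alternative fails already for finitely generated subgroups, and for the
Brin-Higman-Thompson groups of every dimension at least two over every alphabet

The definitions of ping-pong pairs, rational homeomorphisms, `nV` and `Aut(V_{d,k})` are in
`Pool/Agent/H380DT/Defs.lean`; `FailsFG`, `NoInvariantMeasure` and `brinHigman` are in
`Pool/Agent/H380DU/Copies.lean`.
-/

set_option autoImplicit false

namespace Pool.Agent.Results.MP_e5892f_al.FinitelyGeneratedAllDimensions

open Pool.Agent.H380DT Pool.Agent.H380DU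

/-- `FailsFG G` says that there is a finite set of homeomorphisms generating a subgroup of `G`
which preserves no Borel probability measure and has no ping-pong pair. This holds for:
(1) the group `R_A` over every finite alphabet with at least two letters;
(2) the Brin-Higman-Thompson group on `r ≥ 1` copies of the `I`-dimensional cube `(A^ℕ)^I`, for
every finite alphabet `A` with at least two letters and every index set `I` with at least two
elements, finite or infinite;
(3) `nV` for all `n ≥ 2`;
(4) `Aut(V_{d,k})` for all `d ≥ 2`, `k ≥ 1`.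
(5) The property passes to all larger sets of homeomorphisms, and it contradicts the dynamical
Tits alternative. -/
theorem result :
    (∀ (A : Type) [Fintype A] [TopologicalSpace A] [DiscreteTopology A],
      2 ≤ Fintype.card A → FailsFG (rationalHomeos A)) ∧
    (∀ (A : Type) [Fintype A] [TopologicalSpace A] [DiscreteTopology A], 2 ≤ Fintype.card A →
      ∀ r : ℕ, 1 ≤ r → ∀ (I : Type) [Nontrivial I], FailsFG (brinHigman (Fin r) I A)) ∧
    (∀ n : ℕ, 2 ≤ n → FailsFG (brinThompson n)) ∧
    (∀ d k : ℕ, 2 ≤ d → 1 ≤ k → FailsFG (autHigmanThompson d k)) ∧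
    (∀ (X : Type) [TopologicalSpace X] (G G' : Set (X ≃ₜ X)), FailsFG G → G ⊆ G' →
      FailsFG G' ∧ ¬ SatisfiesDTA G') := by
  refine ⟨?_, ?_, ?_, fun d k hd hk => failsFG_aut d k hd hk, ?_⟩
  · intro A _ _ _ hA
    have : Nontrivial A := Fintype.one_lt_card_iff_nontrivial.1 (by omega)
    exact failsFG_rational A
  · intro A _ _ _ hA r hr I _
    have : Nonempty (Fin r) := ⟨⟨0, by omega⟩⟩
    exact failsFG_brinHigman A hA (Fin r) I
  · intro n hn
    obtain ⟨H, hH, hb⟩ := bad_brinOne Bool (by decide) hn
    exact Bad.failsFG' hb fun g hg => hH g hg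
  · rintro X _ G G' ⟨S, hS, hm, hp⟩ hG
    refine ⟨⟨S, hS.trans hG, hm, hp⟩, fun hT => ?_⟩
    rcases hT _ (hS.trans hG) with ⟨μ, hμ, -, hinv⟩ | hpp
    · exact hm μ hμ hinv
    · exact hp hpp

end Pool.Agent.Results.MP_e5892f_al.FinitelyGeneratedAllDimensions
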